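import Pool.Agent.Helper2.NNQ.FarStm

/-!
# Part CEL: the children of a cell (helper61)
-/

set_option autoImplicit false

open MeasureTheory Filter Topology Finset

namespace Pool.Agent.Helper61A.NNF

open Pool.Agent.Helper2.NNF

theorem pow_low {a b : ℝ} (hb : 0 ≤ b) (hab : b ≤ a) :
    ∀ k : ℕ, ((k : ℝ) + 1) * b ^ k * (a - b) ≤ a ^ (k + 1) - b ^ (k + 1)
  | 0 => by simp
  | k + 1 => by
      have h1 := pow_low hb hab k
      have ha : 0 ≤ a := hb.trans hab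
      have h2 : a ^ (k + 1 + 1) - b ^ (k + 1 + 1) =
          a * (a ^ (k + 1) - b ^ (k + 1)) + b ^ (k + 1) * (a - b) := by ring
      have h3 : b * (((k : ℝ) + 1) * b ^ k * (a - b)) ≤ a * (a ^ (k + 1) - b ^ (k + 1)) := by
        have h4 : 0 ≤ ((k : ℝ) + 1) * b ^ k * (a - b) :=
          mul_nonneg (by positivity) (sub_nonneg.2 hab)
        exact mul_le_mul hab h1 h4 ha
      rw [h2]
      push_cast
      have h5 : ((k : ℝ) + 1 + 1) * b ^ (k + 1) * (a - b) =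
          b * (((k : ℝ) + 1) * b ^ k * (a - b)) + b ^ (k + 1) * (a - b) := by ring
      rw [h5]
      linarith

theorem pow_up {a b : ℝ} (hb : 0 ≤ b) (hab : b ≤ a) :
    ∀ k : ℕ, a ^ (k + 1) - b ^ (k + 1) ≤ ((k : ℝ) + 1) * a ^ k * (a - b)
  | 0 => by simp
  | k + 1 => by
      have h1 := pow_up hb hab k
      have ha : 0 ≤ a := hb.trans hab
      have h2 : a ^ (k + 1 + 1) - b ^ (k + 1 + 1) =
          a * (a ^ (k + 1) - b ^ (k + 1)) + b ^ (k + 1) * (a - b) := by ring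
      have h3 : a * (a ^ (k + 1) - b ^ (k + 1)) ≤ a * (((k : ℝ) + 1) * a ^ k * (a - b)) :=
        mul_le_mul_of_nonneg_left h1 ha
      have h4 : b ^ (k + 1) * (a - b) ≤ a ^ (k + 1) * (a - b) :=
        mul_le_mul_of_nonneg_right (pow_le_pow_left₀ hb hab _) (sub_nonneg.2 hab)
      rw [h2]
      push_cast
      have h5 : ((k : ℝ) + 1 + 1) * a ^ (k + 1) * (a - b) =
          a * (((k : ℝ) + 1) * a ^ k * (a - b)) + a ^ (k + 1) * (a - b) := by ring
      rw [h5]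
      linarith

theorem root_pow {a : ℝ} {k : ℕ} (hk : k ≠ 0) (ha : 0 ≤ a) : (a ^ (1 / (k : ℝ))) ^ k = a := by
  rw [one_div]
  exact Real.rpow_inv_natCast_pow ha hk

theorem le_root {x a : ℝ} {k : ℕ} (hk : k ≠ 0) (hx : 0 ≤ x) (h : x ^ k ≤ a) :
    x ≤ a ^ (1 / (k : ℝ)) := by
  rw [one_div, ← Real.pow_rpow_inv_natCast hx hk]
  exact Real.rpow_le_rpow (pow_nonneg hx _) h (by positivity)

theorem root_le {x a : ℝ} {k : ℕ} (hk : k ≠ 0) (hx : 0 ≤ x) (ha : 0 ≤ a) (h : a ≤ x ^ k) :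
    a ^ (1 / (k : ℝ)) ≤ x := by
  rw [one_div, ← Real.pow_rpow_inv_natCast hx hk]
  exact Real.rpow_le_rpow ha h (by positivity)

/-- The numbers for one cell. -/
theorem cell_facts {A B : ℝ} {n : ℕ} (hn : 2 ≤ n) (hA : (n : ℝ) / 2 + 2 ≤ n + A) {w : ℤ}
    (hw : WW A B n w) : ∃ u v : ℝ, u = (w : ℝ) ^ (1 / (n : ℝ)) ∧ v = ((w : ℝ) + 1) ^ (1 / (n : ℝ)) ∧
      n + A ≤ u ∧ u ≤ v ∧ v ≤ n + B ∧ (u + 1) ^ (n + 1) + (n / 2 + 2) ≤ (v + 1) ^ (n + 1) := by
  obtain ⟨hw1, hw2⟩ := hw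
  have hn0 : n ≠ 0 := by omega
  have hwr : (1 : ℝ) ≤ (w : ℝ) := by exact_mod_cast hw1
  refine ⟨_, _, rfl, rfl, ?_⟩
  set u := (w : ℝ) ^ (1 / (n : ℝ)) with hu
  set v := ((w : ℝ) + 1) ^ (1 / (n : ℝ)) with hv
  have hun : u ^ n = w := root_pow hn0 (by linarith)
  have hvn : v ^ n = w + 1 := root_pow hn0 (by linarith)
  have huv : u ≤ v := Real.rpow_le_rpow (by linarith) (by linarith) (by positivity)
  have hne : (u - n : ℝ) ∈ cel n w := ⟨le_rfl, by
    show u - n ≤ v - n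
    linarith⟩
  have hne' : (v - n : ℝ) ∈ cel n w := ⟨by
    show u - n ≤ v - n
    linarith, le_rfl⟩
  have h1 := (hw2 hne).1
  have h2 := (hw2 hne').2
  have hnA : n + A ≤ u := by linarith
  have hu3 : 3 ≤ u := by
    have : (2 : ℝ) ≤ n := by exact_mod_cast hn
    linarith
  have hv1 : v ≤ u + 1 := by
    by_contra hcon
    push Not at hcon
    have h3 : (u + 1) ^ n < v ^ n := pow_lt_pow_left₀ hcon (by linarith) hn0
    have h4 := pow_low (a := u + 1) (b := u) (by linarith) (by linarith) (n - 1)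
    have h5 : n - 1 + 1 = n := by omega
    rw [h5] at h4
    have h6 : (1 : ℝ) ≤ (((n - 1 : ℕ) : ℝ) + 1) * u ^ (n - 1) * (u + 1 - u) := by
      have h7 : (1 : ℝ) ≤ u ^ (n - 1) := one_le_pow₀ (by linarith)
      have h8 : (1 : ℝ) ≤ ((n - 1 : ℕ) : ℝ) + 1 := by
        have : (0 : ℝ) ≤ ((n - 1 : ℕ) : ℝ) := Nat.cast_nonneg _
        linarith
      have h9 : (u + 1 - u : ℝ) = 1 := by ring
      rw [h9, mul_one]
      nlinarith
    rw [hvn] at h3
    rw [hun] at h4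
    linarith
  refine ⟨hnA, huv, by linarith, ?_⟩
  -- the difference
  have h3 := pow_low (a := v + 1) (b := u + 1) (by linarith) (by linarith) n
  have h4 := pow_up (a := v) (b := u) (by linarith) huv (n - 1)
  have h5 : n - 1 + 1 = n := by omega
  rw [h5, hvn, hun] at h4
  have hnc : (((n - 1 : ℕ) : ℝ) + 1) = n := by
    have : ((n - 1 + 1 : ℕ) : ℝ) = n := by rw [h5]
    push_cast at this ⊢
    linarith
  rw [hnc] at h4
  -- `1 ≤ n v^(n-1) (v - u)`
  have hvpos : 0 < v := by linarith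
  have hv' : v ^ n = v ^ (n - 1) * v := by rw [← pow_succ, h5]
  have h6 : v ^ n ≤ (u + 1) ^ n := pow_le_pow_left₀ hvpos.le hv1 n
  have h7 : v ≤ ((n : ℝ) + 1) * (u + 1) ^ n * (v - u) := by
    have h8 : 0 ≤ v - u := by linarith
    have h9 : v ^ (n - 1) * v * ((n : ℝ) * (v - u)) ≤ (u + 1) ^ n * ((n : ℝ) * (v - u)) := by
      rw [← hv']
      exact mul_le_mul_of_nonneg_right h6 (by positivity)
    have h10 : v * 1 ≤ v * (n * v ^ (n - 1) * (v - u)) :=
      mul_le_mul_of_nonneg_left (by linarith) hvpos.le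
    have h11 : 0 ≤ (u + 1) ^ n * (v - u) := mul_nonneg (by positivity) h8
    nlinarith
  have h8 : (v + 1 - (u + 1) : ℝ) = v - u := by ring
  rw [h8] at h3
  linarith

theorem t_CEL : S_CEL := by
  intro A B Q r m hAB hQ
  -- the choice of `N₀`
  have e1 : ∀ᶠ n : ℕ in atTop, (n : ℝ) / 2 + 2 ≤ n + A := by
    have h1 : Tendsto (fun n : ℕ => (n : ℝ)) atTop atTop := tendsto_natCast_atTop_atTop
    filter_upwards [h1.eventually_ge_atTop (4 - 2 * A)] with n hn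
    linarith
  have e2 : ∀ᶠ n : ℕ in atTop, 2 ≤ (n : ℝ) * (B - A) := by
    have h1 : Tendsto (fun n : ℕ => (n : ℝ)) atTop atTop := tendsto_natCast_atTop_atTop
    filter_upwards [h1.eventually_ge_atTop (2 / (B - A))] with n hn
    rwa [div_le_iff₀ (sub_pos.2 hAB)] at hn
  have e3 : ∀ᶠ n : ℕ in atTop, Real.exp (A + 1) / 2 ≤ (1 + (A + 1) / n) ^ n := by
    have h1 := Real.tendsto_one_add_div_pow_exp (A + 1)
    exact (h1.eventually (lt_mem_nhds (half_lt_self (Real.exp_pos _)))).mono fun n hn => hn.le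
  have e4 : ∀ᶠ n : ℕ in atTop, 2 / Real.exp (A + 1) ≤ (n : ℝ) + (A + 1) := by
    have h1 : Tendsto (fun n : ℕ => (n : ℝ)) atTop atTop := tendsto_natCast_atTop_atTop
    filter_upwards [h1.eventually_ge_atTop (2 / Real.exp (A + 1) - (A + 1))] with n hn
    linarith
  obtain ⟨N, hN⟩ := eventually_atTop.1 ((e1.and e2).and (e3.and e4))
  refine ⟨max N 2, le_max_right _ _, ?_, ?_⟩
  · intro n hn
    obtain ⟨⟨h1, h2⟩, -⟩ := hN n ((le_max_left _ _).trans hn)
    have hn2 : 2 ≤ n := (le_max_right _ _).trans hn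
    have hn2r : (2 : ℝ) ≤ n := by exact_mod_cast hn2
    have hn0 : n ≠ 0 := by omega
    have hnA : 3 ≤ (n : ℝ) + A := by linarith
    have hpow : (1 : ℝ) ≤ ((n : ℝ) + A) ^ n := one_le_pow₀ (by linarith)
    have hce : ((n : ℝ) + A) ^ n ≤ ⌈((n : ℝ) + A) ^ n⌉ := Int.le_ceil _
    have hce' : (⌈((n : ℝ) + A) ^ n⌉ : ℝ) < ((n : ℝ) + A) ^ n + 1 := Int.ceil_lt_add_one _
    refine ⟨⌈((n : ℝ) + A) ^ n⌉, ?_, ?_⟩
    · have : (1 : ℝ) ≤ (⌈((n : ℝ) + A) ^ n⌉ : ℝ) := hpow.trans hce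
      exact_mod_cast this
    · intro x hx
      obtain ⟨hx1, hx2⟩ := hx
      have h3 : (n : ℝ) + A ≤ (⌈((n : ℝ) + A) ^ n⌉ : ℝ) ^ (1 / (n : ℝ)) :=
        le_root hn0 (by linarith) hce
      have h4 := pow_low (a := (n : ℝ) + B) (b := (n : ℝ) + A) (by linarith) (by linarith) (n - 1)
      have h5 : n - 1 + 1 = n := by omega
      have hnc : (((n - 1 : ℕ) : ℝ) + 1) = n := by
        have : ((n - 1 + 1 : ℕ) : ℝ) = n := by rw [h5]
        push_cast at this ⊢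
        linarith
      rw [h5, hnc] at h4
      have h6 : (2 : ℝ) ≤ (n : ℝ) * ((n : ℝ) + A) ^ (n - 1) * ((n : ℝ) + B - (n + A)) := by
        have h7 : (1 : ℝ) ≤ ((n : ℝ) + A) ^ (n - 1) := one_le_pow₀ (by linarith)
        have h8 : ((n : ℝ) + B - (n + A)) = B - A := by ring
        rw [h8]
        have h9 : (n : ℝ) * ((n : ℝ) + A) ^ (n - 1) * (B - A) =
            ((n : ℝ) * (B - A)) * ((n : ℝ) + A) ^ (n - 1) := by ring
        rw [h9]
        nlinarith
      have h7 : (⌈((n : ℝ) + A) ^ n⌉ : ℝ) + 1 ≤ ((n : ℝ) + B) ^ n := by linarith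
      have h8 : ((⌈((n : ℝ) + A) ^ n⌉ : ℝ) + 1) ^ (1 / (n : ℝ)) ≤ (n : ℝ) + B :=
        root_le hn0 (by linarith) (by linarith) h7
      exact ⟨by linarith, by linarith⟩
  · intro n hn hmQ w i hw hi
    obtain ⟨⟨h1, -⟩, h3, h4⟩ := hN n ((le_max_left _ _).trans hn)
    have hn2 : 2 ≤ n := (le_max_right _ _).trans hn
    have hn2r : (2 : ℝ) ≤ n := by exact_mod_cast hn2
    obtain ⟨u, v, hu, hv, hnA, huv, hvB, hdiff⟩ := cell_facts hn2 h1 hw
    have hu3 : 3 ≤ u := by linarith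
    have hQ1 := hQ (n + 1)
    have hQr : (2 : ℝ) ≤ (Q (n + 1) : ℝ) := by exact_mod_cast hQ1
    set P := (u + 1) ^ (n + 1) with hP
    have hPc : P ≤ ⌈P⌉ := Int.le_ceil _
    have hPc' : (⌈P⌉ : ℝ) < P + 1 := Int.ceil_lt_add_one _
    have hTT : ∀ i : ℕ, TT Q r n w i = ⌈P⌉ + (r (n + 1) - ⌈P⌉) % Q (n + 1) + i * Q (n + 1) := by
      intro i
      rw [TT, ← hu]
    have hmod0 : 0 ≤ (r (n + 1) - ⌈P⌉) % Q (n + 1) := Int.emod_nonneg _ (by omega)
    have hmod1 : (r (n + 1) - ⌈P⌉) % Q (n + 1) + 1 ≤ Q (n + 1) :=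
      Int.emod_lt_of_pos _ (by omega)
    have hmod0r : (0 : ℝ) ≤ (((r (n + 1) - ⌈P⌉) % Q (n + 1) : ℤ) : ℝ) := by exact_mod_cast hmod0
    have hmod1r : (((r (n + 1) - ⌈P⌉) % Q (n + 1) : ℤ) : ℝ) + 1 ≤ Q (n + 1) := by
      exact_mod_cast hmod1
    have hTr : ∀ i : ℕ, ((TT Q r n w i : ℤ) : ℝ) =
        ⌈P⌉ + (((r (n + 1) - ⌈P⌉) % Q (n + 1) : ℤ) : ℝ) + i * Q (n + 1) := by
      intro i
      rw [hTT i, Int.cast_add, Int.cast_add, Int.cast_mul, Int.cast_natCast]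
    have hlo : ∀ i : ℕ, P ≤ (TT Q r n w i : ℝ) := by
      intro i
      rw [hTr i]
      have : (0 : ℝ) ≤ i * Q (n + 1) := by positivity
      linarith
    have hhi : ∀ i : ℕ, i < m n → (TT Q r n w i : ℝ) + 1 ≤ (v + 1) ^ (n + 1) := by
      intro i hi
      rw [hTr i]
      have h5 : ((i : ℝ) + 1) ≤ m n := by exact_mod_cast hi
      have h6 : ((i : ℝ) + 1) * Q (n + 1) ≤ m n * Q (n + 1) :=
        mul_le_mul_of_nonneg_right h5 (by linarith)
      have h7 : ((m n : ℝ) + 1) * Q (n + 1) = m n * Q (n + 1) + Q (n + 1) := by ring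
      have h8 : ((i : ℝ) + 1) * Q (n + 1) = i * Q (n + 1) + Q (n + 1) := by ring
      linarith
    have hsub : ∀ i : ℕ, i < m n → cel (n + 1) (TT Q r n w i) ⊆ cel n w := by
      intro i hi x hx
      obtain ⟨hx1, hx2⟩ := hx
      have h5 : u + 1 ≤ (TT Q r n w i : ℝ) ^ (1 / ((n + 1 : ℕ) : ℝ)) :=
        le_root (Nat.succ_ne_zero n) (by linarith) (hlo i)
      have h6 : ((TT Q r n w i : ℝ) + 1) ^ (1 / ((n + 1 : ℕ) : ℝ)) ≤ v + 1 :=
        root_le (Nat.succ_ne_zero n) (by linarith) (by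
          have := hlo i
          have : 0 ≤ P := by positivity
          linarith) (hhi i hi)
      have hc : ((n + 1 : ℕ) : ℝ) = n + 1 := by push_cast; ring
      refine ⟨?_, ?_⟩
      · show (w : ℝ) ^ (1 / (n : ℝ)) - n ≤ x
        rw [← hu]
        linarith
      · show x ≤ ((w : ℝ) + 1) ^ (1 / (n : ℝ)) - n
        rw [← hv]
        linarith
    have hnn : (n : ℝ) ^ n ≤ P := by
      have hnpos : (0 : ℝ) < n := by linarith
      have h5 : (n : ℝ) + (A + 1) ≤ u + 1 := by linarith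
      have h6 : (n : ℝ) + (A + 1) = n * (1 + (A + 1) / n) := by
        field_simp
      have hx0 : 0 ≤ (n : ℝ) + (A + 1) := by linarith
      have h7 : ((n : ℝ) + (A + 1)) ^ (n + 1) ≤ P := pow_le_pow_left₀ hx0 h5 _
      have h8 : ((n : ℝ) + (A + 1)) ^ (n + 1) =
          ((n : ℝ) ^ n * (1 + (A + 1) / n) ^ n) * ((n : ℝ) + (A + 1)) := by
        rw [pow_succ]
        congr 1
        rw [← mul_pow, ← h6]
      have h9 : (1 : ℝ) ≤ (1 + (A + 1) / n) ^ n * ((n : ℝ) + (A + 1)) := by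
        have h10 : (Real.exp (A + 1) / 2) * (2 / Real.exp (A + 1)) ≤
            (1 + (A + 1) / n) ^ n * ((n : ℝ) + (A + 1)) :=
          mul_le_mul h3 h4 (by positivity) (le_trans (by positivity) h3)
        have h11 : (Real.exp (A + 1) / 2) * (2 / Real.exp (A + 1)) = 1 := by
          have := Real.exp_pos (A + 1)
          field_simp
        linarith
      have h10 : (0 : ℝ) ≤ (n : ℝ) ^ n := by positivity
      rw [h8, mul_assoc] at h7
      nlinarith
    have hone : (1 : ℝ) ≤ (TT Q r n w i : ℝ) := by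
      have h5 : (1 : ℝ) ≤ P := one_le_pow₀ (by linarith)
      exact h5.trans (hlo i)
    refine ⟨⟨by exact_mod_cast hone, (hsub i hi).trans hw.2⟩, hsub i hi, ?_, hnn.trans (hlo i), ?_⟩
    · rw [hTT i, Int.add_mul_emod_self_right, Int.add_emod, Int.emod_emod_of_dvd _ (dvd_refl _),
        ← Int.add_emod]
      congr 1
      ring
    · intro i' hii' hi' x hx y hy
      have hx' := hsub i hi hx
      have hy' := hsub i' hi' hy
      -- bounds for `X = n + 1 + x`, `Y = n + 1 + y`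
      have hc : ((n + 1 : ℕ) : ℝ) = n + 1 := by push_cast; ring
      have hX0 : u + 1 ≤ n + 1 + x := by
        have h5 : (w : ℝ) ^ (1 / (n : ℝ)) - n ≤ x := hx'.1
        rw [← hu] at h5
        linarith
      have hY0 : u + 1 ≤ n + 1 + y := by
        have h5 : (w : ℝ) ^ (1 / (n : ℝ)) - n ≤ y := hy'.1
        rw [← hu] at h5
        linarith
      have hY1 : n + 1 + y ≤ n + 1 + B := by
        have h5 : y ≤ ((w : ℝ) + 1) ^ (1 / (n : ℝ)) - n := hy'.2
        rw [← hv] at h5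
        linarith
      have hT0 : ∀ i : ℕ, (0 : ℝ) ≤ (TT Q r n w i : ℝ) := fun i =>
        le_trans (by positivity) (hlo i)
      have hXp : (n + 1 + x) ^ (n + 1) ≤ (TT Q r n w i : ℝ) + 1 := by
        have h5 : x ≤ ((TT Q r n w i : ℝ) + 1) ^ (1 / ((n + 1 : ℕ) : ℝ)) - ((n + 1 : ℕ) : ℝ) := hx.2
        have h6 : n + 1 + x ≤ ((TT Q r n w i : ℝ) + 1) ^ (1 / ((n + 1 : ℕ) : ℝ)) := by
          rw [hc] at h5 ⊢
          linarith
        have h7 := pow_le_pow_left₀ (by linarith) h6 (n + 1)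
        rwa [root_pow (Nat.succ_ne_zero n) (by linarith [hT0 i])] at h7
      have hYp : (TT Q r n w i' : ℝ) ≤ (n + 1 + y) ^ (n + 1) := by
        have h5 : (TT Q r n w i' : ℝ) ^ (1 / ((n + 1 : ℕ) : ℝ)) - ((n + 1 : ℕ) : ℝ) ≤ y := hy.1
        have h6 : (TT Q r n w i' : ℝ) ^ (1 / ((n + 1 : ℕ) : ℝ)) ≤ n + 1 + y := by
          rw [hc] at h5 ⊢
          linarith
        have h7 := pow_le_pow_left₀ (Real.rpow_nonneg (hT0 i') _) h6 (n + 1)
        rwa [root_pow (Nat.succ_ne_zero n) (hT0 i')] at h7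
      have hii : (1 : ℝ) ≤ (i' : ℝ) - i := by
        have : ((i + 1 : ℕ) : ℝ) ≤ i' := by exact_mod_cast hii'
        push_cast at this
        linarith
      have hdT : (TT Q r n w i' : ℝ) - TT Q r n w i = ((i' : ℝ) - i) * Q (n + 1) := by
        rw [hTr i, hTr i']
        ring
      have hgap : ((i' : ℝ) - i) * (Q (n + 1) / 2) ≤ (n + 1 + y) ^ (n + 1) - (n + 1 + x) ^ (n + 1) := by
        have h5 : (1 : ℝ) ≤ ((i' : ℝ) - i) * (Q (n + 1) / 2) := by nlinarith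
        have h6 : ((i' : ℝ) - i) * Q (n + 1) =
            ((i' : ℝ) - i) * (Q (n + 1) / 2) + ((i' : ℝ) - i) * (Q (n + 1) / 2) := by ring
        linarith
      have hxy : n + 1 + x ≤ n + 1 + y := by
        by_contra hcon
        push Not at hcon
        have h5 : (n + 1 + y) ^ (n + 1) ≤ (n + 1 + x) ^ (n + 1) :=
          pow_le_pow_left₀ (by linarith) hcon.le _
        have h6 : 0 < ((i' : ℝ) - i) * (Q (n + 1) / 2) := by positivity
        linarith
      have h5 := pow_up (a := (n : ℝ) + 1 + y) (b := (n : ℝ) + 1 + x) (by linarith) hxy n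
      have h6 : ((n : ℝ) + 1) * ((n : ℝ) + 1 + y) ^ n * ((n : ℝ) + 1 + y - (n + 1 + x)) ≤
          (((n : ℝ) + 1) * ((n : ℝ) + 1 + B) ^ n) * (y - x) := by
        have h7 : ((n : ℝ) + 1 + y - (n + 1 + x)) = y - x := by ring
        rw [h7]
        refine mul_le_mul_of_nonneg_right ?_ (by linarith)
        exact mul_le_mul_of_nonneg_left (pow_le_pow_left₀ (by linarith) hY1 n) (by positivity)
      have hD : 0 < ((n : ℝ) + 1) * ((n : ℝ) + 1 + B) ^ n := by
        have : 0 < (n : ℝ) + 1 + B := by linarith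
        positivity
      have h7 : ((i' : ℝ) - i) * (Q (n + 1) / (2 * (((n : ℝ) + 1) * ((n : ℝ) + 1 + B) ^ n))) ≤
          y - x := by
        have h8 : ((i' : ℝ) - i) * (Q (n + 1) / (2 * (((n : ℝ) + 1) * ((n : ℝ) + 1 + B) ^ n))) =
            (((i' : ℝ) - i) * (Q (n + 1) / 2)) / (((n : ℝ) + 1) * ((n : ℝ) + 1 + B) ^ n) := by
          field_simp
        rw [h8, div_le_iff₀ hD]
        linarith
      refine h7.trans ?_
      rw [abs_sub_comm]
      exact le_abs_self _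

end Pool.Agent.Helper61A.NNF
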